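import Mathlib

namespace Pool.Agent.MP_151be3_an

/-- `V` admits an equivalent norm `N` (a seminorm squeezed between two positive multiples of the
given norm) which is `C¹`-smooth (in the Fréchet sense) away from the origin. -/
def HasC1Norm (V : Type*) [NormedAddCommGroup V] [NormedSpace ℝ V] : Prop :=
  ∃ N : Seminorm ℝ V,
    (∃ c C : ℝ, 0 < c ∧ 0 < C ∧ ∀ v, c * ‖v‖ ≤ N v ∧ N v ≤ C * ‖v‖) ∧
      ContDiffOn ℝ 1 (fun v => N v) {0}ᶜ

end Pool.Agent.MP_151be3_an
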